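import Pool.Agent.H82.NET.Stmts

/-!
# Row KEY of the board `net`
-/

set_option autoImplicit false

namespace Pool.NET

theorem KEY_thm : KEY_S := by
  intro A _ k
  classical
  have : Fintype A := Fintype.ofFinite A
  obtain ⟨n, ⟨e⟩⟩ := Finite.exists_equiv_fin A
  set f : A → ℤ ×ₗ (ℤ ×ₗ Fin n) := fun a => toLex ((k a).1, toLex ((k a).2, e a)) with hf
  have hlt : ∀ a b : A, f a < f b →
      ((Finset.univ.filter (fun c => f c < f a)).card : ℝ) <
        ((Finset.univ.filter (fun c => f c < f b)).card : ℝ) := by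
    intro a b hab
    have h1 : (Finset.univ.filter (fun c => f c < f a)) ⊂
        (Finset.univ.filter (fun c => f c < f b)) := by
      rw [Finset.ssubset_iff_of_subset]
      · refine ⟨a, ?_, ?_⟩
        · rw [Finset.mem_filter]
          exact ⟨Finset.mem_univ a, hab⟩
        · rw [Finset.mem_filter]
          exact fun h => lt_irrefl _ h.2
      · intro c hc
        rw [Finset.mem_filter] at hc ⊢
        exact ⟨hc.1, hc.2.trans hab⟩
    exact_mod_cast Finset.card_lt_card h1
  refine ⟨fun a => ((Finset.univ.filter (fun c => f c < f a)).card : ℝ), ?_, ?_⟩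
  · intro a b hab
    rcases lt_trichotomy (f a) (f b) with h | h | h
    · exact absurd hab (hlt a b h).ne
    · have h1 : ((k a).1, toLex ((k a).2, e a)) = ((k b).1, toLex ((k b).2, e b)) :=
        toLex.injective h
      have h2 : toLex ((k a).2, e a) = toLex ((k b).2, e b) := (Prod.mk.inj h1).2
      have h3 : ((k a).2, e a) = ((k b).2, e b) := toLex.injective h2
      exact e.injective (Prod.mk.inj h3).2
    · exact absurd hab (hlt b a h).ne'
  · intro a b hab
    apply hlt
    rw [hf]
    rcases hab with h | ⟨h1, h2⟩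
    · exact Prod.Lex.toLex_lt_toLex.2 (Or.inl h)
    · refine Prod.Lex.toLex_lt_toLex.2 (Or.inr ⟨h1, ?_⟩)
      exact Prod.Lex.toLex_lt_toLex.2 (Or.inl h2)

theorem key_thm : KEY_S := KEY_thm

end Pool.NET
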